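import Mathlib

set_option autoImplicit false

/-!
# Regular higher powers in `π`-regular rings
-/

namespace Pool.Agent.Results.MP_59f064_al.EvenPower

/-- `a` is von Neumann regular. -/
def IsReg {R : Type*} [Ring R] (a : R) : Prop := ∃ x : R, a = a * x * a

/-- `R` is `π`-regular. -/
def PiRegular (R : Type*) [Ring R] : Prop := ∀ a : R, ∃ n : ℕ, 1 ≤ n ∧ IsReg (a ^ n)

/-- In a `π`-regular ring every element (regular or not) has, for every `N`, a regular power
`a ^ k` with `k ≥ N`, and `k` may be taken divisible by any given positive integer `m`. -/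
theorem result {R : Type*} [Ring R] (hR : PiRegular R) (a : R) (N m : ℕ) (hm : 1 ≤ m) :
    ∃ k : ℕ, N ≤ k ∧ 2 ≤ k ∧ m ∣ k ∧ IsReg (a ^ k) := by
  obtain ⟨n, hn, h⟩ := hR (a ^ (m * (N + 2)))
  refine ⟨m * (N + 2) * n, ?_, ?_, ?_, ?_⟩
  · calc N ≤ N + 2 := by omega
      _ = 1 * (N + 2) * 1 := by ring
      _ ≤ m * (N + 2) * n := Nat.mul_le_mul (Nat.mul_le_mul_right _ hm) hn
  · calc 2 ≤ 1 * (N + 2) * 1 := by omega
      _ ≤ m * (N + 2) * n := Nat.mul_le_mul (Nat.mul_le_mul_right _ hm) hn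
  · exact ⟨(N + 2) * n, by ring⟩
  · rw [pow_mul]
    exact h

end Pool.Agent.Results.MP_59f064_al.EvenPower
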